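import Mathlib

/-!
A Peano continuum of infinite dimension all of whose subsets have trivial higher homotopy groups:
definitions and statements.
-/

set_option autoImplicit false

open Set Filter Topology

namespace Pool.Agent.Q185.PC

/-- `F` separates `x` and `y`: they lie in different components of the complement of `F` -/
def Sep {Q : Type} [TopologicalSpace Q] (F : Set Q) (x y : Q) : Prop :=
  x ∉ F ∧ y ∉ F ∧ y ∉ connectedComponentIn Fᶜ x

/-- every map to the circle lifts to the line -/
def Lifts (Q : Type) [TopologicalSpace Q] : Prop :=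
  ∀ h : C(Q, Circle), ∃ θ : C(Q, ℝ), ∀ x, h x = Circle.exp (θ x)

/-- J1: a closed set that separates two points of a simply connected space has a component that
separates them -/
def S1 : Prop :=
  ∀ (Q : Type) [TopologicalSpace Q] [CompactSpace Q] [T2Space Q] [ConnectedSpace Q]
    [LocallyConnectedSpace Q], Lifts Q → ∀ (A : Set Q) (x y : Q), IsClosed A → Sep A x y →
    ∃ a ∈ A, Sep (connectedComponentIn A a) x y

/-- a family of pairwise disjoint continua -/
structure Walls {Q : Type} [TopologicalSpace Q] (FF : Set (Set Q)) : Prop where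
  closed : ∀ F ∈ FF, IsClosed F
  conn : ∀ F ∈ FF, IsConnected F
  disj : ∀ F ∈ FF, ∀ G ∈ FF, F ≠ G → Disjoint F G

/-- no wall separates the points -/
def Eqv {Q : Type} [TopologicalSpace Q] (FF : Set (Set Q)) (x y : Q) : Prop :=
  ∀ F ∈ FF, ¬ Sep F x y

/-- the points of a wall are separated from all other points by walls -/
def Sharp {Q : Type} [TopologicalSpace Q] (FF : Set (Set Q)) : Prop :=
  ∀ F ∈ FF, ∀ x ∈ F, ∀ y, y ∉ F → ∃ G ∈ FF, Sep G x y

/-- `z` is a median of `a`, `b`, `c`: no wall separates it from two of them -/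
def Med {Q : Type} [TopologicalSpace Q] (FF : Set (Set Q)) (a b c z : Q) : Prop :=
  ∀ F ∈ FF, ¬ (Sep F z a ∧ Sep F z b) ∧ ¬ (Sep F z a ∧ Sep F z c) ∧ ¬ (Sep F z b ∧ Sep F z c)

/-- J2: medians -/
def S2 : Prop :=
  ∀ (Q : Type) [TopologicalSpace Q] [CompactSpace Q] [T2Space Q] [ConnectedSpace Q]
    [LocallyConnectedSpace Q] (FF : Set (Set Q)), Walls FF →
    IsClosed {p : Q × Q × Q × Q | Med FF p.1 p.2.1 p.2.2.1 p.2.2.2} ∧
    (∀ a b c, ∃ z, Med FF a b c z) ∧
    (Sharp FF → ∀ a b c z z', Med FF a b c z → Med FF a b c z' → Eqv FF z z')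

/-- J3: a connected compact set, all of whose points are separated from `e`, lies on the far side
of a single wall -/
def S3 : Prop :=
  ∀ (Q : Type) [TopologicalSpace Q] [CompactSpace Q] [T2Space Q] [ConnectedSpace Q]
    [LocallyConnectedSpace Q] (FF : Set (Set Q)), Walls FF →
    ∀ (K : Set Q) (e : Q), IsCompact K → IsConnected K → (∀ k ∈ K, ∃ F ∈ FF, Sep F e k) →
    ∃ F ∈ FF, e ∉ F ∧ Disjoint K (connectedComponentIn Fᶜ e)

/-- the complement of a closed set without nonconstant paths is an open subset of the line -/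
structure Chart (X : Type) [TopologicalSpace X] (O : Set ℝ) (c : ℝ → X) : Prop where
  isOpen_dom : IsOpen O
  cont : ContinuousOn c O
  inj : InjOn c O
  isOpen_image : ∀ U ⊆ O, IsOpen U → IsOpen (c '' U)
  path : ∀ γ : C(unitInterval, X), (∀ t, γ t ∉ c '' O) → ∀ t, γ t = γ 0

/-- the components of the fibres over the chart -/
def wallsOf {X Q : Type} [TopologicalSpace Q] (f : Q → X) (O : Set ℝ) (c : ℝ → X) :
    Set (Set Q) :=
  {F | ∃ x : Q, ∃ t ∈ O, f x = c t ∧ F = connectedComponentIn (f ⁻¹' {c t}) x}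

/-- J4: the walls of a map are sharp -/
def S4 : Prop :=
  S1 → ∀ (X Q : Type) [TopologicalSpace X] [T2Space X] [TopologicalSpace Q] [CompactSpace Q]
    [T2Space Q] [ConnectedSpace Q] [LocallyConnectedSpace Q] (O : Set ℝ) (c : ℝ → X) (f : Q → X),
    Lifts Q → Chart X O c → Continuous f → Walls (wallsOf f O c) ∧ Sharp (wallsOf f O c)

/-- J5: the map is constant on the classes -/
def S5 : Prop :=
  S3 → ∀ (X Q : Type) [TopologicalSpace X] [T2Space X] [TopologicalSpace Q] [CompactSpace Q]
    [T2Space Q] [PathConnectedSpace Q] [LocallyConnectedSpace Q] (O : Set ℝ) (c : ℝ → X)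
    (f : Q → X), Chart X O c → Continuous f → Walls (wallsOf f O c) → Sharp (wallsOf f O c) →
    ∀ x y, Eqv (wallsOf f O c) x y → f x = f y

/-- J6: homotopy groups -/
def S6 : Prop :=
  S1 → S2 → S3 → S4 → S5 → ∀ (X : Type) [TopologicalSpace X] [T2Space X] (O : Set ℝ) (c : ℝ → X),
    Chart X O c → ∀ (M : Set X) (m : ℕ), 2 ≤ m → ∀ x : M, Subsingleton (HomotopyGroup (Fin m) M x)

/-- all paths are constant -/
def NoPaths (Z : Type) [TopologicalSpace Z] : Prop :=
  ∀ γ : C(unitInterval, Z), ∀ t, γ t = γ 0

/-- A Peano continuum: a compact, connected, locally connected metrizable space. -/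
structure IsPeanoContinuum (X : Type) [TopologicalSpace X] : Prop where
  metrizable : TopologicalSpace.MetrizableSpace X
  compact : CompactSpace X
  connected : ConnectedSpace X
  locallyConnected : LocallyConnectedSpace X

/-- J7: every compact metric space without paths is a closed subset of a Peano continuum with
complement a disjoint union of open arcs -/
def S7 : Prop :=
  ∀ (Z : Type) [MetricSpace Z] [CompactSpace Z] [Nonempty Z], NoPaths Z →
    ∃ (X : Type) (_ : TopologicalSpace X) (O : Set ℝ) (c : ℝ → X) (ι : Z → X),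
      IsPeanoContinuum X ∧ Chart X O c ∧ Continuous ι ∧ Function.Injective ι

/-- The covering dimension is at most `n`: every finite open cover has a finite open refinement
such that each point lies in at most `n + 1` members. -/
def DimLE (X : Type) [TopologicalSpace X] (n : ℕ) : Prop :=
  ∀ (r : ℕ) (U : Fin r → Set X), (∀ i, IsOpen (U i)) → (⋃ i, U i) = univ →
    ∃ (s : ℕ) (V : Fin s → Set X), (∀ j, IsOpen (V j)) ∧ (⋃ j, V j) = univ ∧
      (∀ j, ∃ i, V j ⊆ U i) ∧ ∀ x : X, {j : Fin s | x ∈ V j}.ncard ≤ n + 1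

/-- J8: infinite dimension -/
def S8 : Prop :=
  ∀ (P : Type) [MetricSpace P] [CompactSpace P] [ConnectedSpace P] [Nontrivial P]
    (X : Type) [TopologicalSpace X] [T2Space X] [CompactSpace X] (ι : (ℕ → P) → X),
    Continuous ι → Function.Injective ι → ∀ n : ℕ, ¬ DimLE X n

/-- J9: there is a nondegenerate continuum without paths -/
def S9 : Prop :=
  ∃ (P : Type) (_ : MetricSpace P), CompactSpace P ∧ ConnectedSpace P ∧ Nontrivial P ∧ NoPaths P

end Pool.Agent.Q185.PC
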