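import Pool.Agent.Q185.PC.Stm
import Pool.Agent.Helper162.Arc.PA
import Pool.Agent.Helper300.Cont

/-!
The pseudo-arc contains no nonconstant paths.
-/

set_option autoImplicit false

open Set Topology

namespace Pool.Agent.Q185.PC

/-- A subcontinuum of a (metric) space: a nonempty compact connected subset. -/
def IsSubcontinuum {X : Type} [TopologicalSpace X] (K : Set X) : Prop :=
  IsCompact K ∧ IsConnected K

/-- `K` is decomposable: it is the union of two subcontinua, both different from `K`. -/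
def IsDecomposable {X : Type} [TopologicalSpace X] (K : Set X) : Prop :=
  ∃ A B : Set X, IsSubcontinuum A ∧ IsSubcontinuum B ∧ A ≠ K ∧ B ≠ K ∧ A ∪ B = K

/-- Every nondegenerate subcontinuum of `K` is decomposable. -/
def HereditarilyDecomposable {X : Type} [TopologicalSpace X] (K : Set X) : Prop :=
  ∀ L : Set X, L ⊆ K → IsSubcontinuum L → L.Nontrivial → IsDecomposable L

/-- A continuous map sends a hereditarily decomposable continuum to a point, or to a decomposable
continuum (proof of the starting file PseudoArcSquare). -/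
theorem image_subsingleton {X Y : Type} [TopologicalSpace X] [TopologicalSpace Y] [T2Space X]
    [T2Space Y] {f : X → Y} (hf : Continuous f) {K : Set X} (hK : IsSubcontinuum K)
    (hd : HereditarilyDecomposable K) (hY : ¬ IsDecomposable (f '' K)) :
    (f '' K).Subsingleton := by
  by_contra hcon
  rw [not_subsingleton_iff] at hcon
  obtain ⟨L, hLK, hL⟩ := zorn_superset_nonempty
    {L : Set X | IsSubcontinuum L ∧ f '' K ⊆ f '' L}
    (by
      intro c hc hchain hne
      obtain ⟨s0, hs0⟩ := hne
      have hcl : ∀ s ∈ c, IsClosed s := fun s hs => (hc hs).1.1.isClosed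
      have hcomp : IsCompact (⋂₀ c) :=
        (hc hs0).1.1.of_isClosed_subset (isClosed_sInter hcl) (sInter_subset_of_mem hs0)
      have hne : ∀ y ∈ f '' K, ∃ x ∈ ⋂₀ c, f x = y := by
        intro y hy
        have : Nonempty c := ⟨⟨s0, hs0⟩⟩
        obtain ⟨x, hx⟩ := IsCompact.nonempty_iInter_of_directed_nonempty_isCompact_isClosed
          (fun s : c => (s : Set X) ∩ f ⁻¹' {y})
          (by
            intro a b
            rcases hchain.total a.2 b.2 with h | h
            · exact ⟨a, Subset.rfl, inter_subset_inter_left _ h⟩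
            · exact ⟨b, inter_subset_inter_left _ h, Subset.rfl⟩)
          (by
            intro s
            obtain ⟨x, hx, hxy⟩ := (hc s.2).2 hy
            exact ⟨x, hx, hxy⟩)
          (fun s => (hc s.2).1.1.inter_right (isClosed_singleton.preimage hf))
          (fun s => (hcl s s.2).inter (isClosed_singleton.preimage hf))
        rw [mem_iInter] at hx
        exact ⟨x, mem_sInter.2 fun s hs => (hx ⟨s, hs⟩).1, (hx ⟨s0, hs0⟩).2⟩
      refine ⟨⋂₀ c, ⟨⟨hcomp, ?_, ?_⟩, ?_⟩, fun s hs => sInter_subset_of_mem hs⟩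
      · obtain ⟨y, hy⟩ := hcon.nonempty
        obtain ⟨x, hx, -⟩ := hne y hy
        exact ⟨x, hx⟩
      · exact Pool.Agent.Helper300.Cont.isPreconnected_sInter hchain ⟨s0, hs0⟩
          (fun s hs => (hc hs).1.1) (fun s hs => (hc hs).1.2.isPreconnected)
      · intro y hy
        obtain ⟨x, hx, hxy⟩ := hne y hy
        exact ⟨x, hx, hxy⟩)
    K ⟨hK, Subset.rfl⟩
  have hfL : f '' L = f '' K := Subset.antisymm (image_mono hLK) hL.prop.2
  have hLn : L.Nontrivial := by
    obtain ⟨a, ha, b, hb, hab⟩ := hcon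
    rw [← hfL] at ha hb
    obtain ⟨x, hx, rfl⟩ := ha
    obtain ⟨y, hy, rfl⟩ := hb
    exact ⟨x, hx, y, hy, fun h => hab (congrArg f h)⟩
  obtain ⟨A, B, hA, hB, hAL, hBL, hAB⟩ := hd L hLK hL.prop.1 hLn
  have hsub : ∀ C : Set X, C ⊆ L → IsSubcontinuum C → f '' K ⊆ f '' C → C = L :=
    fun C hC hCc h => Subset.antisymm hC (hL.le_of_le ⟨hCc, h⟩ hC)
  apply hY
  refine ⟨f '' A, f '' B, ⟨hA.1.image hf, hA.2.image f hf.continuousOn⟩,
    ⟨hB.1.image hf, hB.2.image f hf.continuousOn⟩, ?_, ?_, ?_⟩
  · intro h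
    exact hAL (hsub A (hAB ▸ subset_union_left) hA h.ge)
  · intro h
    exact hBL (hsub B (hAB ▸ subset_union_right) hB h.ge)
  · rw [← image_union, hAB, hfL]

/-- the unit interval is hereditarily decomposable -/
theorem interval_hd : HereditarilyDecomposable (univ : Set unitInterval) := by
  rintro L - ⟨hLc, hLn, hLp⟩ ⟨a, ha, b, hb, hab⟩
  wlog h : a < b generalizing a b
  · exact this b hb a ha hab.symm (lt_of_le_of_ne (not_lt.1 h) hab.symm)
  obtain ⟨c, hac, hcb⟩ := exists_between h
  have hord : L.OrdConnected := hLp.ordConnected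
  have hcL : c ∈ L := hord.out ha hb ⟨hac.le, hcb.le⟩
  have h1 : ∀ s : Set unitInterval, IsClosed s → s.OrdConnected → c ∈ s →
      IsSubcontinuum (L ∩ s) := by
    intro s hs hs' hcs
    refine ⟨hLc.inter_right hs, ⟨c, hcL, hcs⟩, ?_⟩
    exact (hord.inter hs').isPreconnected
  refine ⟨L ∩ Iic c, L ∩ Ici c, h1 _ isClosed_Iic ordConnected_Iic self_mem_Iic,
    h1 _ isClosed_Ici ordConnected_Ici self_mem_Ici, ?_, ?_, ?_⟩
  · intro he
    have : b ∈ L ∩ Iic c := by rw [he]; exact hb
    exact absurd this.2 (not_le.2 hcb)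
  · intro he
    have : a ∈ L ∩ Ici c := by rw [he]; exact ha
    exact absurd this.2 (not_le.2 hac)
  · rw [← inter_union_distrib_left, Iic_union_Ici, inter_univ]

theorem s9 : S9 := by
  refine ⟨Pool.Agent.Helper162.Arc.PA,
    TopologicalSpace.metrizableSpaceMetric Pool.Agent.Helper162.Arc.PA,
    inferInstance, inferInstance, inferInstance, ?_⟩
  intro γ t
  have hi : ∀ C : Set Pool.Agent.Helper162.Arc.PA, IsSubcontinuum C → ¬ IsDecomposable C := by
    rintro C hC ⟨A, B, hA, hB, hAK, hBK, hAB⟩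
    exact Pool.Agent.Helper162.Arc.pa_hi hC ⟨A, B, hA, hB, hAB ▸ subset_union_left,
      hAB ▸ subset_union_right, hAK, hBK, hAB⟩
  have hK : IsSubcontinuum (univ : Set unitInterval) := ⟨isCompact_univ, isConnected_univ⟩
  have h1 := image_subsingleton γ.continuous hK interval_hd
    (hi _ ⟨hK.1.image γ.continuous, hK.2.image _ γ.continuous.continuousOn⟩)
  exact h1 ⟨t, trivial, rfl⟩ ⟨0, trivial, rfl⟩

end Pool.Agent.Q185.PC
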